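import Pool.Agent.Helper95.RK.GoalsB
import Pool.Agent.Helper95.RK.Basics
import Pool.Agent.Helper22.Lin.PhNat
import Pool.Agent.Helper10.SP.WIRT

/-! # Packet RK-NATC: naturality of `B` -/

open Complex Metric Set Filter Topology MeasureTheory
open scoped ContDiff ComplexConjugate ComplexOrder Manifold Matrix

namespace Pool.Agent.Helper99.RK

open Pool.Agent.Helper95.Lin Pool.Agent.Helper16.Abund Pool.Agent.Helper92.Orb
open Pool.Agent.Helper10.SP Pool.Agent.Helper22.Lin Pool.Agent.Helper95.RK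

section calcu

variable {n : ℕ} {W : Set (Cn n)}

theorem cd_congr (hW : IsOpen W) {f g : Cn n → ℂ} (h : ∀ y ∈ W, f y = g y) (l : Fin n) {x : Cn n}
    (hx : x ∈ W) : cd l f x = cd l g x ∧ cdb l f x = cdb l g x := by
  have h1 : f =ᶠ[𝓝 x] g := by
    filter_upwards [hW.mem_nhds hx] with y hy using h y hy
  have h2 := h1.fderiv_eq (𝕜 := ℝ)
  simp only [cd, cdb, h2, and_self]

theorem cd_zero (l : Fin n) (x : Cn n) : cd l (fun _ => (0 : ℂ)) x = 0 ∧
    cdb l (fun _ => (0 : ℂ)) x = 0 := by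
  simp [cd, cdb]

theorem cd_sum (hW : IsOpen W) {ι : Type*} (s : Finset ι) {f : ι → Cn n → ℂ}
    (hf : ∀ i, ContDiffOn ℝ ∞ (f i) W) (l : Fin n) {x : Cn n} (hx : x ∈ W) :
    cd l (fun y => ∑ i ∈ s, f i y) x = ∑ i ∈ s, cd l (f i) x ∧
    cdb l (fun y => ∑ i ∈ s, f i y) x = ∑ i ∈ s, cdb l (f i) x := by
  have h1 : ∀ i ∈ s, DifferentiableAt ℝ (f i) x := fun i _ => Wirt.dAt hW (hf i) hx
  have h2 := fderiv_fun_sum h1
  simp only [cd, cdb, h2, _root_.sum_apply, Finset.mul_sum, Finset.sum_sub_distrib,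
    Finset.sum_add_distrib, and_self]

theorem holo_cdb (hW : IsOpen W) {f : Cn n → ℂ} (hf : DifferentiableOn ℂ f W) (l : Fin n)
    {x : Cn n} (hx : x ∈ W) : cdb l f x = 0 :=
  ((Wirt.wirt W hW f f (holo_contDiffOn_real hW hf) (holo_contDiffOn_real hW hf)).2.2.2.2.2).2 hf
    l x hx

theorem holo_cd (hW : IsOpen W) {f : Cn n → ℂ} (hf : DifferentiableOn ℂ f W) (l : Fin n) :
    DifferentiableOn ℂ (cd l f) W := by
  have hs := holo_contDiffOn_real hW hf
  have h1 := Wirt.wirt W hW f f hs hs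
  have h2 := (h1.1 l).1
  refine ((Wirt.wirt W hW _ _ h2 h2).2.2.2.2.2).1 fun m x hx => ?_
  rw [← (h1.2.2.2.2.1 l m x hx).2.2, (cd_congr hW (f := cdb m f) (g := fun _ => 0)
    (fun y hy => holo_cdb hW hf m hy) l hx).1]
  exact (cd_zero l x).1

theorem cdb_holo_mul (hW : IsOpen W) {f g : Cn n → ℂ} (hf : DifferentiableOn ℂ f W)
    (hg : ContDiffOn ℝ ∞ g W) (l : Fin n) {x : Cn n} (hx : x ∈ W) :
    cdb l (fun y => f y * g y) x = f x * cdb l g x := by
  rw [((Wirt.wirt W hW f g (holo_contDiffOn_real hW hf) hg).2.2.1 l x hx).2, holo_cdb hW hf l hx]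
  ring

theorem prod_holo {ι : Type*} (s : Finset ι) {f : ι → Cn n → ℂ}
    (hf : ∀ i, DifferentiableOn ℂ (f i) W) : DifferentiableOn ℂ (fun x => ∏ i ∈ s, f i x) W := by
  classical
  induction s using Finset.induction_on with
  | empty => simp only [Finset.prod_empty]; exact differentiableOn_const _
  | insert a s ha ih => simp only [Finset.prod_insert ha]; exact (hf a).mul ih

theorem det_holo {m : ℕ} {A : Cn n → Matrix (Fin m) (Fin m) ℂ}
    (hA : ∀ i j, DifferentiableOn ℂ (fun x => A x i j) W) :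
    DifferentiableOn ℂ (fun x => (A x).det) W := by
  simp only [Matrix.det_apply]
  refine DifferentiableOn.fun_sum fun σ _ => ?_
  refine DifferentiableOn.fun_const_smul ?_ _
  exact prod_holo _ fun i => hA _ _

theorem inv_holo {m : ℕ} {A : Cn n → Matrix (Fin m) (Fin m) ℂ}
    (hA : ∀ i j, DifferentiableOn ℂ (fun x => A x i j) W) (hd : ∀ x ∈ W, (A x).det ≠ 0)
    (i j : Fin m) : DifferentiableOn ℂ (fun x => (A x)⁻¹ i j) W := by
  have h1 : ∀ x, (A x)⁻¹ i j = (A x).det⁻¹ * ((A x).updateRow j (Pi.single i 1)).det := by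
    intro x
    rw [Matrix.inv_def, Matrix.smul_apply, Matrix.adjugate_apply, Ring.inverse_eq_inv',
      smul_eq_mul]
  simp only [h1]
  refine (DifferentiableOn.inv (det_holo hA) hd).mul (det_holo fun p q => ?_)
  by_cases hp : p = j
  · subst hp
    simp only [Matrix.updateRow_self]
    exact differentiableOn_const _
  · simp only [Matrix.updateRow_ne hp]
    exact hA p q

end calcu

section main

variable {b k : ℕ} {W' W : Set (Cn (b + k))}
  {Q' Q : Cn (b + k) → Matrix (Fin (b + k)) (Fin (b + k)) ℂ} {Φ' Φ : Cn (b + k) → ℝ}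
  {τ : Cn (b + k) → Cn (b + k)}

/-- Derivative of the fibre block of the differential. -/
noncomputable def DJ (τ : Cn (b + k) → Cn (b + k)) (i : Fin k) (x : Cn (b + k)) :
    Matrix (Fin k) (Fin k) ℂ := Matrix.of fun j p => cd (Fin.natAdd b i) (fun y => Jfq τ y j p) x

theorem detJ (hNATA : S_NATA) (h : MorQ W' W Q' Q Φ' Φ τ) {x : Cn (b + k)} (hx : x ∈ W') :
    (Jfq τ x).det ≠ 0 := by
  have h1 := ((hNATA W' W Q' Q Φ' Φ τ h).2.2 x hx).2.1
  intro h2
  apply h.det x hx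
  rw [h1, h2, mul_zero]

theorem step1 (hSMQ : S_SMQ) (hNATA : S_NATA) (h : MorQ W' W Q' Q Φ' Φ τ) {x : Cn (b + k)}
    (hx : x ∈ W') (i : Fin k) :
    (Matrix.of fun j l => cd (Fin.natAdd b i) (fun y => gq Q' y j l) x) =
      DJ τ i x * gq Q (τ x) * (Jfq τ x)ᴴ + ∑ r, Jfq τ x i r •
        (Jfq τ x * (Matrix.of fun j l => cd (Fin.natAdd b r) (fun y => gq Q y j l) (τ x)) *
          (Jfq τ x)ᴴ) := by
  have hW' := h.src.isOpen
  obtain ⟨hJ, -, hN⟩ := hNATA W' W Q' Q Φ' Φ τ h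
  have hg := ((hSMQ W Q Φ h.tgt).1).2.1
  have hτ : ContDiffOn ℝ ∞ τ W' := holo_contDiffOn_real hW' h.holo
  have hJs : ∀ i p, ContDiffOn ℝ ∞ (fun x => Jfq τ x i p) W' := fun i p =>
    holo_contDiffOn_real hW' (hJ i p)
  have hJc : ∀ i p, ContDiffOn ℝ ∞ (fun x => conj (Jfq τ x i p)) W' := fun i p =>
    (Complex.conjCLE.contDiff (n := ∞)).comp_contDiffOn (hJs i p)
  have hgτ : ∀ p q, ContDiffOn ℝ ∞ (fun x => gq Q (τ x) p q) W' := fun p q =>
    (hg p q).1.comp hτ h.maps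
  ext j l
  rw [Matrix.of_apply]
  have e1 : ∀ y ∈ W', gq Q' y j l = ∑ q, ∑ p, (Jfq τ y j p * gq Q (τ y) p q) *
      conj (Jfq τ y l q) := by
    intro y hy
    rw [(hN y hy).2.2.1, Matrix.mul_apply]
    refine Finset.sum_congr rfl fun q _ => ?_
    rw [Matrix.mul_apply, Finset.sum_mul]
    rfl
  rw [(cd_congr hW' e1 _ hx).1]
  have s1 : ∀ q p, ContDiffOn ℝ ∞ (fun y => (Jfq τ y j p * gq Q (τ y) p q) *
      conj (Jfq τ y l q)) W' := fun q p => ((hJs j p).mul (hgτ p q)).mul (hJc l q)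
  rw [(cd_sum hW' Finset.univ (fun q => ContDiffOn.sum fun p _ => s1 q p) _ hx).1]
  have e2 : ∀ q p, cd (Fin.natAdd b i) (fun y => (Jfq τ y j p * gq Q (τ y) p q) *
      conj (Jfq τ y l q)) x = (DJ τ i x j p * gq Q (τ x) p q + Jfq τ x j p * ∑ r, Jfq τ x i r *
        cd (Fin.natAdd b r) (fun y => gq Q y p q) (τ x)) * conj (Jfq τ x l q) := by
    intro q p
    rw [((Wirt.wirt W' hW' (fun y => Jfq τ y j p * gq Q (τ y) p q) (fun y => conj (Jfq τ y l q))
      ((hJs j p).mul (hgτ p q)) (hJc l q)).2.2.1 _ x hx).1,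
      ((Wirt.wirt W' hW' (fun y => Jfq τ y l q) (fun y => Jfq τ y l q) (hJs l q)
        (hJs l q)).2.2.2.1 _ x hx).1, holo_cdb hW' (hJ l q) _ hx, map_zero, mul_zero, zero_add,
      ((Wirt.wirt W' hW' (fun y => Jfq τ y j p) (fun y => gq Q (τ y) p q) (hJs j p)
        (hgτ p q)).2.2.1 _ x hx).1,
      (((hN x hx).2.2.2.2.2.2 (fun y => gq Q y p q) (hg p q).1).1 i).1]
    simp only [DJ, Matrix.of_apply]
    ring
  have e3 : ∀ q ∈ Finset.univ, cd (Fin.natAdd b i) (fun y => ∑ p, (Jfq τ y j p *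
      gq Q (τ y) p q) * conj (Jfq τ y l q)) x = ∑ p, (DJ τ i x j p * gq Q (τ x) p q +
        Jfq τ x j p * ∑ r, Jfq τ x i r *
        cd (Fin.natAdd b r) (fun y => gq Q y p q) (τ x)) * conj (Jfq τ x l q) := by
    intro q _
    rw [(cd_sum hW' Finset.univ (fun p => s1 q p) _ hx).1]
    exact Finset.sum_congr rfl fun p _ => e2 q p
  rw [Finset.sum_congr rfl e3]
  simp only [Matrix.add_apply, Matrix.sum_apply, Matrix.smul_apply, Matrix.mul_apply,
    Matrix.of_apply, Matrix.conjTranspose_apply, smul_eq_mul, starRingEnd_apply]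
  simp only [add_mul, Finset.sum_add_distrib, Finset.sum_mul, Finset.mul_sum]
  congr 1
  rw [Finset.sum_congr rfl (fun q _ => Finset.sum_comm), Finset.sum_comm]
  refine Finset.sum_congr rfl fun r _ => Finset.sum_congr rfl fun q _ =>
    Finset.sum_congr rfl fun p _ => ?_
  ring

theorem gdet (hSMQ : S_SMQ) (h : AdQ W Q Φ) {x : Cn (b + k)} (hx : x ∈ W) :
    IsUnit (gq Q x).det := by
  have h1 := ((hSMQ W Q Φ h).1.1 x hx).1
  exact isUnit_iff_ne_zero.2 h1.det_pos.ne'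

theorem step2 (hSMQ : S_SMQ) (hNATA : S_NATA) (h : MorQ W' W Q' Q Φ' Φ τ) {x : Cn (b + k)}
    (hx : x ∈ W') (i : Fin k) :
    chrM (gq Q') i x = DJ τ i x * (Jfq τ x)⁻¹ + ∑ r, Jfq τ x i r •
        (Jfq τ x * chrM (gq Q) r (τ x) * (Jfq τ x)⁻¹) := by
  have hN := (hNATA W' W Q' Q Φ' Φ τ h).2.2
  have hg := gdet hSMQ h.tgt (h.maps hx)
  have hJ : IsUnit ((Jfq τ x)ᴴ).det := by
    rw [Matrix.det_conjTranspose]
    exact isUnit_iff_ne_zero.2 (star_ne_zero.2 (detJ hNATA h hx))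
  unfold chrM
  rw [step1 hSMQ hNATA h hx i, (hN x hx).2.2.1, Matrix.mul_inv_rev, Matrix.mul_inv_rev,
    Matrix.add_mul, Matrix.sum_mul]
  have e : ∀ M : Matrix (Fin k) (Fin k) ℂ, M * (Jfq τ x)ᴴ * ((Jfq τ x)ᴴ⁻¹ *
      ((gq Q (τ x))⁻¹ * (Jfq τ x)⁻¹)) = M * (gq Q (τ x))⁻¹ * (Jfq τ x)⁻¹ := by
    intro M
    rw [Matrix.mul_assoc M, ← Matrix.mul_assoc (Jfq τ x)ᴴ, Matrix.mul_nonsing_inv _ hJ,
      Matrix.one_mul, Matrix.mul_assoc]
  congr 1
  · rw [e, Matrix.mul_assoc (DJ τ i x), Matrix.mul_nonsing_inv _ hg, Matrix.mul_one]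
  · refine Finset.sum_congr rfl fun r _ => ?_
    rw [Matrix.smul_mul, e]
    simp only [Matrix.mul_assoc]

theorem natc (hSMQ : S_SMQ) (hNATA : S_NATA) : S_NATC := by
  intro b k W' W Q' Q Φ' Φ τ h x hx a i
  have hW' := h.src.isOpen
  obtain ⟨hJ, -, hN⟩ := hNATA W' W Q' Q Φ' Φ τ h
  obtain ⟨⟨-, -, -, -, hch, -⟩, hS⟩ := hSMQ W Q Φ h.tgt
  have hτ : ContDiffOn ℝ ∞ τ W' := holo_contDiffOn_real hW' h.holo
  have hJi : ∀ q l, DifferentiableOn ℂ (fun y => (Jfq τ y)⁻¹ q l) W' :=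
    inv_holo hJ fun y hy => detJ hNATA h hy
  have hDJ : ∀ j p, DifferentiableOn ℂ (fun y => DJ τ i y j p) W' := fun j p =>
    holo_cd hW' (hJ j p) _
  have hΓ : ∀ r p q, ContDiffOn ℝ ∞ (fun y => chrM (gq Q) r (τ y) p q) W' := fun r p q =>
    (hch r p q).comp hτ h.maps
  ext j l
  have e1 : ∀ y ∈ W', chrM (gq Q') i y j l = (∑ q, DJ τ i y j q * (Jfq τ y)⁻¹ q l) +
      ∑ r, ∑ q, ∑ p, (Jfq τ y i r * Jfq τ y j p * (Jfq τ y)⁻¹ q l) *
        chrM (gq Q) r (τ y) p q := by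
    intro y hy
    rw [step2 hSMQ hNATA h hy i]
    simp only [Matrix.add_apply, Matrix.sum_apply, Matrix.smul_apply, Matrix.mul_apply,
      smul_eq_mul, Finset.sum_mul, Finset.mul_sum]
    congr 1
    refine Finset.sum_congr rfl fun r _ => Finset.sum_congr rfl fun q _ =>
      Finset.sum_congr rfl fun p _ => ?_
    ring
  have hc : ∀ r q p, DifferentiableOn ℂ (fun y => Jfq τ y i r * Jfq τ y j p *
      (Jfq τ y)⁻¹ q l) W' := fun r q p => ((hJ i r).mul (hJ j p)).mul (hJi q l)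
  have hcs : ∀ r q p, ContDiffOn ℝ ∞ (fun y => (Jfq τ y i r * Jfq τ y j p *
      (Jfq τ y)⁻¹ q l) * chrM (gq Q) r (τ y) p q) W' := fun r q p =>
    (holo_contDiffOn_real hW' (hc r q p)).mul (hΓ r p q)
  have h0 : DifferentiableOn ℂ (fun y => ∑ q, DJ τ i y j q * (Jfq τ y)⁻¹ q l) W' :=
    DifferentiableOn.fun_sum fun q _ => (hDJ j q).mul (hJi q l)
  have e2 : ∀ r q p, cdb (Fin.castAdd k a) (fun y => (Jfq τ y i r * Jfq τ y j p *
      (Jfq τ y)⁻¹ q l) * chrM (gq Q) r (τ y) p q) x = (Jfq τ x i r * Jfq τ x j p *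
      (Jfq τ x)⁻¹ q l) * ∑ c, conj (Gbq τ x a c) * BBq Q c r (τ x) p q := by
    intro r q p
    rw [cdb_holo_mul hW' (hc r q p) (hΓ r p q) _ hx,
      ((hN x hx).2.2.2.2.2.2 (fun y => chrM (gq Q) r y p q) (hch r p q)).2 a]
    have e3 : ∀ p', cdb (Fin.natAdd b p') (fun y => chrM (gq Q) r y p q) (τ x) = 0 := fun p' =>
      ((hS (τ x) (h.maps hx)).2.2.2.1 r p p' q).1
    simp only [e3, mul_zero, Finset.sum_const_zero, add_zero]
    rfl
  change cdb (Fin.castAdd k a) (fun y => chrM (gq Q') i y j l) x = _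
  rw [(cd_congr hW' e1 _ hx).2,
    ((Wirt.wirt W' hW' _ _ (holo_contDiffOn_real hW' h0) (ContDiffOn.sum fun r _ =>
      ContDiffOn.sum fun q _ => ContDiffOn.sum fun p _ => hcs r q p)).2.1 _ x hx).2,
    holo_cdb hW' h0 _ hx, zero_add,
    (cd_sum hW' Finset.univ (fun r => ContDiffOn.sum fun q _ => ContDiffOn.sum fun p _ =>
      hcs r q p) _ hx).2]
  have e4 : ∀ r, cdb (Fin.castAdd k a) (fun y => ∑ q, ∑ p, (Jfq τ y i r * Jfq τ y j p *
      (Jfq τ y)⁻¹ q l) * chrM (gq Q) r (τ y) p q) x = ∑ q, ∑ p, (Jfq τ x i r * Jfq τ x j p *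
      (Jfq τ x)⁻¹ q l) * ∑ c, conj (Gbq τ x a c) * BBq Q c r (τ x) p q := by
    intro r
    rw [(cd_sum hW' Finset.univ (fun q => ContDiffOn.sum fun p _ => hcs r q p) _ hx).2]
    refine Finset.sum_congr rfl fun q _ => ?_
    rw [(cd_sum hW' Finset.univ (fun p => hcs r q p) _ hx).2]
    exact Finset.sum_congr rfl fun p _ => e2 r q p
  rw [Finset.sum_congr rfl (fun r _ => e4 r)]
  simp only [Matrix.sum_apply, Matrix.smul_apply, Matrix.mul_apply, smul_eq_mul,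
    Finset.sum_mul, Finset.mul_sum]
  rw [Finset.sum_congr rfl fun r _ => Finset.sum_congr rfl fun q _ => Finset.sum_comm,
    Finset.sum_congr rfl fun r _ => Finset.sum_comm, Finset.sum_comm]
  refine Finset.sum_congr rfl fun c _ => Finset.sum_congr rfl fun r _ =>
    Finset.sum_congr rfl fun q _ => Finset.sum_congr rfl fun p _ => ?_
  ring

end main

end Pool.Agent.Helper99.RK

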